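import Pool.Agent.U136.DX.Stm

/-!
# Project DX, package MON: the monomials of degree five separate integer points
-/

set_option autoImplicit false

namespace Pool.Agent.U399.DX

open Pool.Agent.N983.RT Pool.Agent.U136.DS Pool.Agent.U136.DX

lemma prod_single (k : Fin 3 → ℝ) (i : Fin 3) (n : ℕ) :
    ∏ j, k j ^ (Pi.single i n : Fin 3 → ℕ) j = k i ^ n := by
  rw [Finset.prod_eq_single i (fun b _ hb => by rw [Pi.single_eq_of_ne hb, pow_zero])
    (fun h => absurd (Finset.mem_univ i) h), Pi.single_eq_same]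

lemma sum_single' (i : Fin 3) (n : ℕ) : ∑ j, (Pi.single i n : Fin 3 → ℕ) j = n := by
  rw [Finset.sum_eq_single i (fun b _ hb => by rw [Pi.single_eq_of_ne hb])
    (fun h => absurd (Finset.mem_univ i) h), Pi.single_eq_same]

lemma five (x y : ℝ) (h : 1 ≤ |x - y|) : x ^ 4 / 2 ≤ |x ^ 5 - y ^ 5| := by
  have h1 : x ^ 5 - y ^ 5 = (x - y) * (x ^ 4 + x ^ 3 * y + x ^ 2 * y ^ 2 + x * y ^ 3 + y ^ 4) := by ring
  have h2 : x ^ 4 / 2 ≤ x ^ 4 + x ^ 3 * y + x ^ 2 * y ^ 2 + x * y ^ 3 + y ^ 4 := by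
    have : 0 ≤ (x ^ 2 + x * y) ^ 2 / 2 + (y * (x + y)) ^ 2 / 2 + (y ^ 2) ^ 2 / 2 := by positivity
    nlinarith [this]
  have h3 : 0 ≤ x ^ 4 / 2 := by positivity
  rw [h1, abs_mul, abs_of_nonneg (h3.trans h2)]
  nlinarith

lemma key (k k' : Fin 3 → ℤ) (hne : k ≠ k') (i : Fin 3) (h1 : ∀ j, |k j| ≤ |k i|)
    (h2 : ∀ j, |k' j| ≤ |k i|) :
    ∃ β : Fin 3 → ℕ, ∑ i, β i = 5 ∧ ∀ l,
      (k l : ℝ) ^ 4 / 2 ≤ |∏ j, (k j : ℝ) ^ β j - ∏ j, (k' j : ℝ) ^ β j| ∧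
      (k' l : ℝ) ^ 4 / 2 ≤ |∏ j, (k j : ℝ) ^ β j - ∏ j, (k' j : ℝ) ^ β j| := by
  have hb : ∀ z : ℤ, |z| ≤ |k i| → (z : ℝ) ^ 4 / 2 ≤ (k i : ℝ) ^ 4 / 2 := by
    intro z hz
    have h3 : |(z : ℝ)| ≤ |(k i : ℝ)| := by exact_mod_cast hz
    have h4 := pow_le_pow_left₀ (abs_nonneg _) h3 4
    have e : ∀ x : ℝ, |x| ^ 4 = x ^ 4 := fun x => by
      rw [← abs_pow]
      exact abs_of_nonneg (by positivity)
    rw [e, e] at h4
    linarith
  have hone : ∀ a b : ℤ, a ≠ b → (1 : ℝ) ≤ |(a : ℝ) - b| := by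
    intro a b hab
    have h3 : 1 ≤ |a - b| := Int.one_le_abs (sub_ne_zero.mpr hab)
    exact_mod_cast h3
  by_cases hi : k i = k' i
  · obtain ⟨j, hj⟩ := Function.ne_iff.mp hne
    refine ⟨Pi.single i 4 + Pi.single j 1, ?_, ?_⟩
    · simp only [Pi.add_apply, Finset.sum_add_distrib, sum_single']
    · have e1 : ∀ x : Fin 3 → ℝ, ∏ l, x l ^ (Pi.single i 4 + Pi.single j 1 : Fin 3 → ℕ) l =
          x i ^ 4 * x j := by
        intro x
        simp only [Pi.add_apply, pow_add, Finset.prod_mul_distrib, prod_single, pow_one]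
      have e2 : (k i : ℝ) ^ 4 / 2 ≤ |∏ l, (k l : ℝ) ^ (Pi.single i 4 + Pi.single j 1 : Fin 3 → ℕ) l -
          ∏ l, (k' l : ℝ) ^ (Pi.single i 4 + Pi.single j 1 : Fin 3 → ℕ) l| := by
        rw [e1 (fun l => (k l : ℝ)), e1 (fun l => (k' l : ℝ)), ← hi, ← mul_sub, abs_mul,
          abs_of_nonneg (by positivity)]
        have := hone _ _ hj
        have h5 : 0 ≤ (k i : ℝ) ^ 4 := by positivity
        nlinarith
      exact fun l => ⟨(hb _ (h1 l)).trans e2, (hb _ (h2 l)).trans e2⟩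
  · refine ⟨Pi.single i 5, sum_single' i 5, ?_⟩
    have e2 : (k i : ℝ) ^ 4 / 2 ≤ |∏ l, (k l : ℝ) ^ (Pi.single i 5 : Fin 3 → ℕ) l -
        ∏ l, (k' l : ℝ) ^ (Pi.single i 5 : Fin 3 → ℕ) l| := by
      rw [prod_single (fun l => (k l : ℝ)), prod_single (fun l => (k' l : ℝ))]
      exact five _ _ (hone _ _ hi)
    exact fun l => ⟨(hb _ (h1 l)).trans e2, (hb _ (h2 l)).trans e2⟩

theorem t_MON : S_MON := by
  intro k k' hne
  obtain ⟨i, -, hi⟩ := Finset.exists_max_image (Finset.univ : Finset (Fin 3)) (fun j => |k j|)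
    Finset.univ_nonempty
  obtain ⟨i', -, hi'⟩ := Finset.exists_max_image (Finset.univ : Finset (Fin 3)) (fun j => |k' j|)
    Finset.univ_nonempty
  rcases le_total |k' i'| |k i| with h | h
  · exact key k k' hne i (fun j => hi j (Finset.mem_univ _))
      (fun j => (hi' j (Finset.mem_univ _)).trans h)
  · obtain ⟨β, h1, h2⟩ := key k' k hne.symm i' (fun j => hi' j (Finset.mem_univ _))
      (fun j => (hi j (Finset.mem_univ _)).trans h)
    refine ⟨β, h1, fun l => ?_⟩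
    rw [abs_sub_comm]
    exact ⟨(h2 l).2, (h2 l).1⟩

end Pool.Agent.U399.DX
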